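import Pool.Agent.H77.PUC.StmtsE

/-!
# Project PUC, module AXD: Ax's lemma for an absolute value on an algebraic closure
-/

universe u

namespace PUC

open Polynomial

theorem AXD_abs (hA : SAxl.{u}) (k Ω L Ωh : Type u) [Field k] [Field Ω] [Algebra k Ω]
    [Algebra.IsAlgebraic k Ω] [IsAlgClosed Ω] [NontriviallyNormedField L] [IsUltrametricDist L]
    [CompleteSpace L] [CharZero L] [Field Ωh] [Algebra L Ωh] (w : AbsoluteValue Ωh ℝ)
    (hw : ∀ x : L, w (algebraMap L Ωh x) = ‖x‖) (i : k →+* L)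
    (hi : ∀ (x : L) (ε : ℝ), 0 < ε → ∃ c : k, ‖x - i c‖ ≤ ε) (ι : Ω →+* Ωh)
    (hcomp : ∀ c : k, algebraMap L Ωh (i c) = ι (algebraMap k Ω c)) (v : AbsoluteValue Ω ℝ)
    (hv : ∀ f : Ω, w (ι f) = v f) (p : ℕ) (hp : p.Prime) (hp1 : v (p : Ω) < 1) (g : Ω) (η : ℝ)
    (hη0 : 0 < η)
    (hη : ∀ σ : Ω ≃ₐ[k] Ω, (∀ f, v (σ f) = v f) → v (σ g - g) ≤ η) :
    ∃ b : k, v (g - algebraMap k Ω b) ≤ v (p : Ω)⁻¹ ^ 2 * η := by
  let _ : Algebra k L := i.toAlgebra
  have hik : ∀ c, algebraMap k L c = i c := fun c => rfl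
  let M := algebraicClosure L Ωh
  have hM : ∀ f : Ω, ι f ∈ M := by
    intro f
    rw [mem_algebraicClosure_iff]
    have h1 : IsAlgebraic k f := Algebra.IsAlgebraic.isAlgebraic f
    obtain ⟨P, hP0, hP⟩ := h1
    refine ⟨P.map i, (Polynomial.map_ne_zero_iff i.injective).2 hP0, ?_⟩
    rw [aeval_def, eval₂_map]
    have h2 : (algebraMap L Ωh).comp i = ι.comp (algebraMap k Ω) := RingHom.ext hcomp
    rw [h2, ← hom_eval₂, ← aeval_def, hP, map_zero]
  let ρ : Ω →+* M :=
    { toFun := fun f => ⟨ι f, hM f⟩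
      map_one' := Subtype.ext (map_one ι)
      map_mul' := fun x y => Subtype.ext (map_mul ι x y)
      map_zero' := Subtype.ext (map_zero ι)
      map_add' := fun x y => Subtype.ext (map_add ι x y) }
  let j : M →ₐ[L] AlgebraicClosure L := IsAlgClosed.lift
  let θ : Ω →+* AlgebraicClosure L := (j : M →+* AlgebraicClosure L).comp ρ
  have hθ : ∀ f, θ f = j (ρ f) := fun f => rfl
  have hθk : ∀ c : k, θ (algebraMap k Ω c) = algebraMap L (AlgebraicClosure L) (i c) := by
    intro c
    rw [hθ]
    have h1 : ρ (algebraMap k Ω c) = algebraMap L M (i c) := Subtype.ext (hcomp c).symm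
    rw [h1]
    exact j.commutes (i c)
  have hν : ∀ f : Ω, spectralNorm L (AlgebraicClosure L) (θ f) = v f := by
    intro f
    have h1 : spectralNorm L (AlgebraicClosure L) (θ f) = spectralNorm L M (ρ f) := by
      unfold spectralNorm
      rw [hθ, minpoly.algHom_eq j j.injective]
    rw [h1, ← hv f]
    have h2 := spectralNorm_unique_field_norm_ext (K := L) (L := M)
      (f := w.comp (f := (algebraMap M Ωh)) (algebraMap M Ωh).injective) (fun x => hw x) (ρ f)
    rw [← h2]
    rfl
  have hk : ∀ c : k, ‖i c‖ = v (algebraMap k Ω c) := by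
    intro c
    rw [← hv, ← hcomp, hw]
  have hpn : ‖((p : ℕ) : L)‖ = v (p : Ω) := by
    have := hk (p : k)
    rwa [map_natCast, map_natCast] at this
  let _ : Algebra Ω (AlgebraicClosure L) := θ.toAlgebra
  have : IsScalarTower k Ω (AlgebraicClosure L) := by
    refine IsScalarTower.of_algebraMap_eq fun c => ?_
    rw [IsScalarTower.algebraMap_apply k L (AlgebraicClosure L)]
    exact (hθk c).symm
  have : IsAlgClosure k Ω := ⟨inferInstance, inferInstance⟩
  have : Normal k Ω := IsAlgClosure.normal k Ω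
  obtain ⟨b, hb⟩ := hA L p hp (by rw [hpn]; exact hp1) (θ g) η (by
    intro τ
    let τ' : AlgebraicClosure L ≃ₐ[k] AlgebraicClosure L := τ.restrictScalars k
    let σ : Ω ≃ₐ[k] Ω := τ'.restrictNormal Ω
    have hσ : ∀ f, θ (σ f) = τ (θ f) := fun f => AlgEquiv.restrictNormal_commutes τ' Ω f
    have h1 := hη σ (fun f => by rw [← hν, ← hν, hσ]; exact (spectralNorm_eq_of_equiv τ _).symm)
    rw [← hν, map_sub, hσ] at h1
    exact h1)
  obtain ⟨c, hc⟩ := hi b η hη0
  refine ⟨c, ?_⟩
  rw [← hν, map_sub, hθk]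
  have h1 : θ g - algebraMap L (AlgebraicClosure L) (i c) =
      (θ g - algebraMap L (AlgebraicClosure L) b) + algebraMap L _ (b - i c) := by
    rw [map_sub]; ring
  have hp0 : 0 < v (p : Ω) := by
    rw [← hpn]
    exact norm_pos_iff.2 (by exact_mod_cast hp.ne_zero)
  have h2 : (1 : ℝ) ≤ v (p : Ω)⁻¹ ^ 2 := by
    rw [map_inv₀]
    exact one_le_pow₀ ((one_le_inv₀ hp0).2 hp1.le)
  rw [h1]
  refine (isNonarchimedean_spectralNorm (K := L) _ _).trans (max_le ?_ ?_)
  · rw [hpn] at hb
    rw [map_inv₀]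
    exact hb
  · rw [spectralNorm_extends]
    exact hc.trans (le_mul_of_one_le_left hη0.le h2)

theorem sAxd (hA : SAxl.{u}) : SAxd.{u} := by
  intro k Ω _ _ _ _ _ _ p v hp hna hp1 g η hη0 hη
  let vk : AbsoluteValue k ℝ := v.comp (f := algebraMap k Ω) (algebraMap k Ω).injective
  have hvk : ∀ c, vk c = v (algebraMap k Ω c) := fun c => rfl
  let φ : WithAbs vk →+* WithAbs v := ((WithAbs.equiv v).symm : Ω →+* WithAbs v).comp
    ((algebraMap k Ω).comp (WithAbs.equiv vk : WithAbs vk →+* k))
  have hφ : ∀ x, ‖φ x‖ = ‖x‖ := fun x => rfl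
  have hφc : Continuous φ := by
    refine AddMonoidHomClass.continuous_of_bound φ 1 fun x => ?_
    rw [hφ, one_mul]
  have hext : ∀ x : vk.Completion, ‖UniformSpace.Completion.mapRingHom φ hφc x‖ = ‖x‖ := by
    intro x
    refine UniformSpace.Completion.induction_on x
      (isClosed_eq ?_ continuous_norm) fun a => ?_
    · exact continuous_norm.comp (UniformSpace.Completion.continuous_map)
    · rw [UniformSpace.Completion.mapRingHom_coe, UniformSpace.Completion.norm_coe,
        UniformSpace.Completion.norm_coe, hφ]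
  have hcp0 : (p : k) ≠ 0 := by exact_mod_cast hp.ne_zero
  have hne : ∃ x : vk.Completion, x ≠ 0 ∧ ‖x‖ ≠ 1 := by
    refine ⟨((WithAbs.toAbs vk (p : k) : WithAbs vk) : vk.Completion), ?_, ?_⟩
    · rw [← norm_ne_zero_iff, UniformSpace.Completion.norm_coe, WithAbs.norm_toAbs_eq]
      exact (map_ne_zero vk).2 hcp0
    · rw [UniformSpace.Completion.norm_coe, WithAbs.norm_toAbs_eq, hvk, map_natCast]
      exact hp1.ne
  let _ : NontriviallyNormedField vk.Completion := NontriviallyNormedField.ofNormNeOne hne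
  have hult : IsUltrametricDist vk.Completion := by
    refine IsUltrametricDist.isUltrametricDist_of_forall_norm_add_le_max_norm fun x y => ?_
    refine UniformSpace.Completion.induction_on₂ x y (isClosed_le ?_ ?_) fun a b => ?_
    · fun_prop
    · fun_prop
    · rw [← UniformSpace.Completion.coe_add, UniformSpace.Completion.norm_coe,
        UniformSpace.Completion.norm_coe, UniformSpace.Completion.norm_coe]
      have := hna (algebraMap k Ω a.ofAbs) (algebraMap k Ω b.ofAbs)
      rw [← map_add] at this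
      exact this
  let i : k →+* vk.Completion := (UniformSpace.Completion.coeRingHom).comp
    ((WithAbs.equiv vk).symm : k →+* WithAbs vk)
  let ι : Ω →+* v.Completion := (UniformSpace.Completion.coeRingHom).comp
    ((WithAbs.equiv v).symm : Ω →+* WithAbs v)
  have hchar : CharZero vk.Completion := charZero_of_injective_ringHom i.injective
  let _ : Algebra vk.Completion v.Completion :=
    (UniformSpace.Completion.mapRingHom φ hφc).toAlgebra
  refine AXD_abs hA k Ω vk.Completion v.Completion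
    (NormedField.toAbsoluteValue v.Completion) (fun x => hext x) i ?_ ι ?_ v ?_ p hp hp1 g η hη0 hη
  · intro x ε hε
    have h1 := UniformSpace.Completion.denseRange_coe (α := WithAbs vk)
    obtain ⟨a, ha⟩ := h1.exists_dist_lt x hε
    refine ⟨a.ofAbs, ?_⟩
    rw [← dist_eq_norm]
    exact ha.le
  · intro c
    exact UniformSpace.Completion.mapRingHom_coe hφc _
  · intro f
    exact UniformSpace.Completion.norm_coe _

end PUC
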