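import Pool.Agent.H77.PUC.StmtsE

/-!
# Project PUC, module AXL: Ax's lemma
-/

universe u

namespace PUC

open Polynomial

/-- the exponents in Ax's lemma -/
noncomputable def AXL_e (p n : ℕ) : ℝ :=
  ∑ k ∈ (Finset.range n).filter (fun k => p ^ (k + 1) ≤ n), 1 / ((p : ℝ) ^ (k + 1) - (p : ℝ) ^ k)

theorem AXL_term_nonneg {p : ℕ} (hp : 2 ≤ p) (k : ℕ) :
    0 ≤ 1 / ((p : ℝ) ^ (k + 1) - (p : ℝ) ^ k) := by
  have h1 : (1 : ℝ) ≤ p := by exact_mod_cast (by omega : 1 ≤ p)
  have h2 : (p : ℝ) ^ k ≤ (p : ℝ) ^ (k + 1) := pow_le_pow_right₀ h1 (Nat.le_succ k)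
  exact div_nonneg zero_le_one (by linarith)

theorem AXL_e_nonneg {p : ℕ} (hp : 2 ≤ p) (n : ℕ) : 0 ≤ AXL_e p n :=
  Finset.sum_nonneg fun k _ => AXL_term_nonneg hp k

theorem AXL_e_mono {p : ℕ} (hp : 2 ≤ p) {n n' : ℕ} (h : n' ≤ n) : AXL_e p n' ≤ AXL_e p n := by
  refine Finset.sum_le_sum_of_subset_of_nonneg ?_ fun k _ _ => AXL_term_nonneg hp k
  intro k hk
  rw [Finset.mem_filter, Finset.mem_range] at hk ⊢
  exact ⟨by omega, hk.2.trans h⟩

theorem AXL_e_step {p : ℕ} (hp : 2 ≤ p) (k : ℕ) {n' : ℕ} (h : n' < p ^ (k + 1)) :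
    AXL_e p n' + 1 / ((p : ℝ) ^ (k + 1) - (p : ℝ) ^ k) ≤ AXL_e p (p ^ (k + 1)) := by
  have hk : k ∉ (Finset.range n').filter (fun k => p ^ (k + 1) ≤ n') := by
    rw [Finset.mem_filter]
    intro h1
    omega
  rw [add_comm]
  unfold AXL_e
  rw [← Finset.sum_insert (f := fun k => 1 / ((p : ℝ) ^ (k + 1) - (p : ℝ) ^ k)) hk]
  refine Finset.sum_le_sum_of_subset_of_nonneg ?_ fun k _ _ => AXL_term_nonneg hp k
  intro j hj
  rw [Finset.mem_insert, Finset.mem_filter, Finset.mem_range] at hj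
  rw [Finset.mem_filter, Finset.mem_range]
  rcases hj with rfl | hj
  · exact ⟨(Nat.lt_succ_self _).trans (Nat.lt_pow_self (by omega)), le_rfl⟩
  · exact ⟨by omega, by omega⟩

theorem AXL_e_le {p : ℕ} (hp : 2 ≤ p) (n : ℕ) : AXL_e p n ≤ 2 := by
  have h1 : AXL_e p n ≤ ∑ k ∈ Finset.range n, (1 / (2 : ℝ)) ^ k := by
    unfold AXL_e
    refine (Finset.sum_le_sum_of_subset_of_nonneg (Finset.filter_subset _ _)
      fun k _ _ => AXL_term_nonneg hp k).trans (Finset.sum_le_sum fun k _ => ?_)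
    have h2 : (2 : ℝ) ≤ p := by exact_mod_cast hp
    have h3 : (2 : ℝ) ^ k ≤ (p : ℝ) ^ k := pow_le_pow_left₀ (by norm_num) h2 k
    have h4 : (0 : ℝ) < 2 ^ k := by positivity
    rw [one_div_pow]
    refine one_div_le_one_div_of_le h4 ?_
    rw [pow_succ]
    nlinarith
  exact h1.trans (sum_geometric_two_le n)

section
variable (L : Type u) [NontriviallyNormedField L] [IsUltrametricDist L] [CompleteSpace L]

/-- the spectral norm as an absolute value -/
noncomputable def AXL_v : AbsoluteValue (AlgebraicClosure L) ℝ where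
  toFun := spectralNorm L (AlgebraicClosure L)
  map_mul' x y := map_mul (spectralMulAlgNorm L (AlgebraicClosure L)) x y
  nonneg' := spectralNorm_nonneg
  eq_zero' x := ⟨fun h => eq_zero_of_map_spectralNorm_eq_zero h (Algebra.IsAlgebraic.isAlgebraic x),
    fun h => by rw [h]; exact spectralNorm_zero⟩
  add_le' x y := (isNonarchimedean_spectralNorm (K := L) x y).trans
    (max_le_add_of_nonneg (spectralNorm_nonneg _) (spectralNorm_nonneg _))

theorem AXL_na : IsNonarchimedean (AXL_v L) := isNonarchimedean_spectralNorm (K := L)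

theorem AXL_v_alg (b : L) : AXL_v L (algebraMap L _ b) = ‖b‖ := spectralNorm_extends b

theorem AXL_v_equiv (τ : AlgebraicClosure L ≃ₐ[L] AlgebraicClosure L) (x : AlgebraicClosure L) :
    AXL_v L (τ x) = AXL_v L x := (spectralNorm_eq_of_equiv τ x).symm

theorem AXL_sub (x y : AlgebraicClosure L) : AXL_v L (x - y) ≤ max (AXL_v L x) (AXL_v L y) := by
  rw [sub_eq_add_neg, ← AbsoluteValue.map_neg (AXL_v L) y]
  exact AXL_na L x (-y)

end

theorem AXL_hd {L : Type u} {A : Type u} [Field L] [Field A] [Algebra L A] (P : L[X]) (g b : A)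
    (m : ℕ) (h : (hasseDeriv m (taylor g (P.map (algebraMap L A)))).IsRoot b) :
    aeval (g + b) (hasseDeriv m P) = 0 := by
  have h1 : (hasseDeriv m (P.map (algebraMap L A))) = (hasseDeriv m P).map (algebraMap L A) := by
    ext k
    rw [hasseDeriv_coeff, coeff_map, coeff_map, hasseDeriv_coeff, map_mul, map_natCast]
  have h2 : (hasseDeriv m (taylor g (P.map (algebraMap L A)))).eval b = 0 := h
  rw [← taylor_coeff, taylor_taylor, taylor_coeff, h1, eval_map_algebraMap, add_comm] at h2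
  exact h2

/-- one step -/
theorem AXL_step (hR : SAxr.{u}) (L : Type u) [NontriviallyNormedField L] [IsUltrametricDist L]
    [CompleteSpace L] [CharZero L] (g : AlgebraicClosure L) (η : ℝ)
    (hη : ∀ τ : AlgebraicClosure L ≃ₐ[L] AlgebraicClosure L, AXL_v L (τ g - g) ≤ η) (m : ℕ)
    (hm0 : 0 < m) (hm : m < (minpoly L g).natDegree) :
    ∃ b : AlgebraicClosure L,
      AXL_v L b ^ ((minpoly L g).natDegree - m) *
        ‖((Nat.choose (minpoly L g).natDegree m : ℕ) : L)‖ ≤ η ^ ((minpoly L g).natDegree - m) ∧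
      (minpoly L (g + b)).natDegree < (minpoly L g).natDegree := by
  have hint : IsIntegral L g := Algebra.IsIntegral.isIntegral g
  have hη0 : 0 ≤ η := by
    have := hη AlgEquiv.refl
    simpa using this
  set Q := taylor g ((minpoly L g).map (algebraMap L (AlgebraicClosure L))) with hQ
  have hQm : Q.Monic := by
    rw [hQ, Monic, leadingCoeff_taylor]
    exact (minpoly.monic hint).map _
  have hQd : Q.natDegree = (minpoly L g).natDegree := by
    rw [hQ, natDegree_taylor, natDegree_map]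
  have hroots : ∀ a ∈ Q.roots, AXL_v L a ≤ η := by
    intro a ha
    have h1 : Q.eval a = 0 := isRoot_of_mem_roots ha
    rw [hQ, taylor_eval, eval_map_algebraMap] at h1
    obtain ⟨τ, hτ⟩ := minpoly.exists_algEquiv_of_root' (K := L)
      (Algebra.IsAlgebraic.isAlgebraic g) h1
    have h2 := hη τ
    have h3 : τ g - g = a := by
      rw [hτ]
      ring
    rwa [h3] at h2
  obtain ⟨b, hb, hb2⟩ := hR (AlgebraicClosure L) (AXL_v L) (AXL_na L) Q η hQm hroots hη0 m
    (by rw [hQd]; exact hm)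
  refine ⟨b, ?_, ?_⟩
  · rw [hQd] at hb2
    rw [← AXL_v_alg L, map_natCast]
    exact hb2
  · have h1 := AXL_hd (minpoly L g) g b m hb
    have h2 : (hasseDeriv m (minpoly L g)).natDegree = (minpoly L g).natDegree - m :=
      natDegree_hasseDeriv _ _
    have h3 : hasseDeriv m (minpoly L g) ≠ 0 := by
      intro h0
      rw [h0, natDegree_zero] at h2
      omega
    have h4 := natDegree_le_of_dvd (minpoly.dvd L (g + b) h1) h3
    omega

theorem AXL_main (hB : SAxb.{u}) (hR : SAxr.{u}) (L : Type u) [NontriviallyNormedField L]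
    [IsUltrametricDist L] [CompleteSpace L] [CharZero L] (p : ℕ) (hp : p.Prime)
    (hp1 : ‖(p : L)‖ < 1) : ∀ (n : ℕ) (g : AlgebraicClosure L) (η : ℝ),
    (minpoly L g).natDegree = n →
    (∀ τ : AlgebraicClosure L ≃ₐ[L] AlgebraicClosure L, AXL_v L (τ g - g) ≤ η) →
    ∃ b : L, AXL_v L (g - algebraMap L _ b) ≤ ‖(p : L)‖ ^ (-(AXL_e p n)) * η := by
  have hc0 : 0 < ‖(p : L)‖ := norm_pos_iff.2 (by exact_mod_cast hp.ne_zero)
  set c := ‖(p : L)‖ with hc
  have hp2 := hp.two_le
  have hge : ∀ x : ℝ, 0 ≤ x → 1 ≤ c ^ (-x) := fun x hx =>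
    Real.one_le_rpow_of_pos_of_le_one_of_nonpos hc0 hp1.le (by linarith)
  intro n
  induction n using Nat.strong_induction_on with
  | _ n ih =>
  intro g η hn hη
  have hint : IsIntegral L g := Algebra.IsIntegral.isIntegral g
  have hη0 : 0 ≤ η := by
    have := hη AlgEquiv.refl
    simpa using this
  have hn0 : 0 < n := by rw [← hn]; exact minpoly.natDegree_pos hint
  rcases Nat.lt_or_ge 1 n with hn1 | hn1
  swap
  · have h1 : (minpoly L g).natDegree = 1 := by omega
    obtain ⟨b, hb⟩ := minpoly.natDegree_eq_one_iff.1 h1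
    refine ⟨b, ?_⟩
    rw [hb, sub_self, map_zero]
    exact mul_nonneg (Real.rpow_nonneg hc0.le _) hη0
  -- combination
  have key : ∀ (b : AlgebraicClosure L) (η' : ℝ), η ≤ η' → AXL_v L b ≤ η' →
      (minpoly L (g + b)).natDegree < n →
      ∃ b' : L, AXL_v L (g - algebraMap L _ b') ≤
        c ^ (-(AXL_e p (minpoly L (g + b)).natDegree)) * η' := by
    intro b η' h1 h2 h3
    have h4 : ∀ τ : AlgebraicClosure L ≃ₐ[L] AlgebraicClosure L,
        AXL_v L (τ (g + b) - (g + b)) ≤ η' := by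
      intro τ
      have h5 : τ (g + b) - (g + b) = (τ g - g) + (τ b - b) := by rw [map_add]; ring
      rw [h5]
      refine (AXL_na L _ _).trans (max_le ((hη τ).trans h1) ?_)
      refine (AXL_sub L _ _).trans (max_le ?_ h2)
      rw [AXL_v_equiv]
      exact h2
    obtain ⟨b', hb'⟩ := ih _ h3 (g + b) η' rfl h4
    refine ⟨b', ?_⟩
    have h6 : g - algebraMap L _ b' = (g + b - algebraMap L _ b') - b := by ring
    rw [h6]
    refine (AXL_sub L _ _).trans (max_le hb' (h2.trans ?_))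
    exact le_mul_of_one_le_left (hη0.trans h1) (hge _ (AXL_e_nonneg hp2 _))
  obtain ⟨k, d, hd, hnk⟩ := Nat.exists_eq_pow_mul_and_not_dvd (by omega : n ≠ 0) p hp.ne_one
  have hd0 : d ≠ 0 := by rintro rfl; exact hd (dvd_zero p)
  by_cases hd1 : d = 1
  · -- `n = p ^ (k + 1)`
    subst hd1
    rw [mul_one] at hnk
    obtain ⟨k, rfl⟩ : ∃ k', k = k' + 1 := by
      refine ⟨k - 1, ?_⟩
      rcases Nat.eq_zero_or_pos k with h | h
      · rw [h, pow_zero] at hnk
        omega
      · omega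
    have hm : p ^ k < n := by
      rw [hnk]
      exact Nat.pow_lt_pow_right hp.one_lt (Nat.lt_succ_self k)
    obtain ⟨b, hb1, hb2⟩ := AXL_step hR L g η hη (p ^ k) (pow_pos hp.pos k) (by rw [hn]; exact hm)
    rw [hn, hnk, (hB L p hp hp1 k).2] at hb1
    rw [hn] at hb2
    set M := p ^ (k + 1) - p ^ k with hM
    have hM0 : 0 < M := by rw [hnk] at hm; omega
    have hMr : (M : ℝ) = (p : ℝ) ^ (k + 1) - (p : ℝ) ^ k := by
      rw [hM, Nat.cast_sub (by rw [hnk] at hm; exact hm.le)]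
      push_cast
      ring
    have hMr0 : (0 : ℝ) < M := by exact_mod_cast hM0
    have h1 : AXL_v L b ≤ c ^ (-(1 / (M : ℝ))) * η := by
      by_contra hcon
      rw [not_le] at hcon
      have h2 : 0 ≤ c ^ (-(1 / (M : ℝ))) * η := mul_nonneg (Real.rpow_nonneg hc0.le _) hη0
      have h3 := pow_lt_pow_left₀ hcon h2 hM0.ne'
      rw [mul_pow, ← Real.rpow_natCast, ← Real.rpow_mul hc0.le] at h3
      have h4 : -(1 / (M : ℝ)) * (M : ℝ) = -1 := by field_simp
      rw [h4, Real.rpow_neg_one] at h3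
      have h5 : η ^ M = c⁻¹ * η ^ M * c := by field_simp
      have h6 := mul_lt_mul_of_pos_right h3 hc0
      rw [← h5] at h6
      exact absurd (h6.trans_le hb1) (lt_irrefl _)
    have h2 : η ≤ c ^ (-(1 / (M : ℝ))) * η :=
      le_mul_of_one_le_left hη0 (hge _ (by positivity))
    obtain ⟨b', hb'⟩ := key b _ h2 h1 hb2
    refine ⟨b', hb'.trans ?_⟩
    rw [← mul_assoc, ← Real.rpow_add hc0]
    refine mul_le_mul_of_nonneg_right ?_ hη0
    refine Real.rpow_le_rpow_of_exponent_ge hc0 hp1.le ?_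
    have h3 := AXL_e_step hp2 k (n' := (minpoly L (g + b)).natDegree) (by rw [← hnk]; exact hb2)
    rw [← hMr, ← hnk] at h3
    linarith
  · -- `n = p ^ k * d`, `1 < d` prime to `p`
    have hm : p ^ k < n := by
      rw [hnk]
      have h1 : 0 < p ^ k := pow_pos hp.pos k
      have h2 : 2 ≤ d := by omega
      nlinarith
    obtain ⟨b, hb1, hb2⟩ := AXL_step hR L g η hη (p ^ k) (pow_pos hp.pos k) (by rw [hn]; exact hm)
    rw [hn] at hb1 hb2
    have h0 : ‖((Nat.choose n (p ^ k) : ℕ) : L)‖ = 1 := by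
      rw [hnk]
      exact (hB L p hp hp1 k).1 d hd
    rw [h0, mul_one] at hb1
    have h1 : AXL_v L b ≤ η := by
      by_contra hcon
      rw [not_le] at hcon
      have h3 := pow_lt_pow_left₀ hcon hη0 (n := n - p ^ k) (by omega)
      exact absurd (h3.trans_le hb1) (lt_irrefl _)
    obtain ⟨b', hb'⟩ := key b _ le_rfl h1 hb2
    refine ⟨b', hb'.trans ?_⟩
    refine mul_le_mul_of_nonneg_right ?_ hη0
    refine Real.rpow_le_rpow_of_exponent_ge hc0 hp1.le ?_
    have := AXL_e_mono hp2 hb2.le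
    linarith

theorem sAxl (hB : SAxb.{u}) (hR : SAxr.{u}) : SAxl.{u} := by
  intro L _ _ _ _ p hp hp1 g η hη
  have hc0 : 0 < ‖(p : L)‖ := norm_pos_iff.2 (by exact_mod_cast hp.ne_zero)
  have hη0 : 0 ≤ η := by
    have := hη AlgEquiv.refl
    refine le_trans (le_of_eq ?_) this
    simp [spectralNorm_zero]
  obtain ⟨b, hb⟩ := AXL_main hB hR L p hp hp1 _ g η rfl hη
  refine ⟨b, le_trans hb ?_⟩
  refine mul_le_mul_of_nonneg_right ?_ hη0
  have h1 : ‖(p : L)‖⁻¹ ^ 2 = ‖(p : L)‖ ^ (-(2 : ℝ)) := by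
    rw [Real.rpow_neg hc0.le, inv_pow]
    norm_cast
  rw [h1]
  refine Real.rpow_le_rpow_of_exponent_ge hc0 hp1.le ?_
  have := AXL_e_le hp.two_le (minpoly L g).natDegree
  linarith

end PUC
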