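import Pool.Agent.H77.PUC.StmtsE

/-!
# Project PUC, module CON: connectedness
-/

universe u

namespace PUC

open Polynomial Filter Topology Metric

theorem sCon (hTRD : STrd.{u}) (hFIN : SFin.{u}) (hZER : SZer.{u}) (hNEA : SNea.{u})
    (hOPN : SOpn.{u}) (hZPL : SZpl.{u}) : SCon.{u} := by
  classical
  intro K Ω _ _ _ _ _ _ _ _ _ _ _ p hp hp1 n T h c hcov hc
  obtain ⟨hz1, -, -⟩ := hZPL K Ω
  -- places outside a finite set
  have hgen : ∀ B : Finset K, ∃ P : Place K Ω, zz K Ω ∈ P.ring ∧ P.val (zz K Ω) ∉ B := by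
    intro B
    obtain ⟨a, ha⟩ := Infinite.exists_notMem_finset B
    obtain ⟨P, hP, hPa⟩ := hz1 a
    exact ⟨P, hP, by rw [hPa]; exact ha⟩
  -- a finite level
  obtain ⟨F', hF'1, hF'2, hF'⟩ := hFIN K Ω (Finset.univ.biUnion T)
  have hTF : ∀ i, ∀ t ∈ T i, t ∈ F' := fun i t ht =>
    hF' t (Finset.mem_biUnion.2 ⟨i, Finset.mem_univ i, ht⟩)
  have hagr : ∀ P P' : Place K Ω, Agree (F' : Set Ω) P P' → ∀ i, P ∈ Dom K (T i) →
      P' ∈ Dom K (T i) := by
    intro P P' hPP i hP t ht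
    obtain ⟨h1, h2⟩ := hP t ht
    exact ⟨(hPP t (hTF i t ht)).1 h1, by rw [← Agree.val_eq hPP (hTF i t ht)]; exact h2⟩
  have hh : ∀ P P' : Place K Ω, Agree (F' : Set Ω) P P' → h P = h P' := by
    intro P P' hPP
    obtain ⟨i, hi⟩ := hcov P
    rw [hc i P hi, hc i P' (hagr P P' hPP i hi)]
  -- indicator functions
  have hind : ∀ c0 : K, ∃ B : Finset K, ∀ P P' : Place K Ω, zz K Ω ∈ P.ring →
      P.val (zz K Ω) ∉ B → zz K Ω ∈ P'.ring → P'.val (zz K Ω) ∉ B → h P = c0 → h P' = c0 := by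
    intro c0
    let Xc : Place K Ω → K := fun P => if h P = c0 then 1 else 0
    obtain ⟨f, hf, B, hB⟩ := hTRD K Ω p hp hp1 F' Xc 1 0 (by
        intro P P' hPP
        simp only [Xc, hh P P' hPP]) (by
        intro d _ ε hε
        refine ⟨n, T, fun i => if c i = c0 then 1 else 0, fun P _ => hcov P, ?_⟩
        intro i P _ hP
        by_cases hi : c i = c0
        · simp only [Xc, hc i P hP, if_pos hi]
          refine ⟨P.ring.one_mem, ?_⟩
          rw [P.val_one, sub_self, norm_zero]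
          exact hε.le
        · simp only [Xc, hc i P hP, if_neg hi]
          refine ⟨P.ring.zero_mem, ?_⟩
          rw [P.val_zero, sub_self, norm_zero]
          exact hε.le) (by
        intro P _
        rw [pow_zero, mul_one]
        simp only [Xc]
        split_ifs
        · rw [norm_one]
        · rw [norm_zero]
          exact zero_le_one)
    have hX : ∀ P, Xc P * Xc P - Xc P = 0 := by
      intro P
      simp only [Xc]
      split_ifs <;> simp
    have hq : f * f - f = 0 := by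
      by_contra hne
      obtain ⟨B', hB'⟩ := hZER K Ω _ hne
      obtain ⟨P, hP, hPB⟩ := hgen (B ∪ B')
      rw [Finset.mem_union, not_or] at hPB
      obtain ⟨h1, h2⟩ := hB P hP hPB.1
      apply (hB' P hP hPB.2).2
      rw [P.val_sub (P.ring.mul_mem _ _ h1 h1) h1, P.val_mul h1 h1, h2, hX]
    have hf01 : f = 0 ∨ f = 1 := by
      have h1 : f * (f - 1) = 0 := by rw [← hq]; ring
      rcases mul_eq_zero.1 h1 with h2 | h2
      · exact Or.inl h2
      · exact Or.inr (sub_eq_zero.1 h2)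
    refine ⟨B, fun P P' hP hPB hP' hPB' hPc => ?_⟩
    have h1 := (hB P hP hPB).2
    have h2 := (hB P' hP' hPB').2
    have hX1 : Xc P = 1 := by simp only [Xc, if_pos hPc]
    rw [hX1] at h1
    by_contra hne
    have hX2 : Xc P' = 0 := by simp only [Xc, if_neg hne]
    rw [hX2] at h2
    rcases hf01 with h3 | h3
    · rw [h3, P.val_zero] at h1
      exact zero_ne_one h1
    · rw [h3, P'.val_one] at h2
      exact one_ne_zero h2
  choose B hB using hind
  let B0 : Finset K := Finset.univ.biUnion fun i => B (c i)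
  have hB0 : ∀ i a, a ∉ B0 → a ∉ B (c i) := fun i a ha h1 =>
    ha (Finset.mem_biUnion.2 ⟨i, Finset.mem_univ i, h1⟩)
  have hgood : ∀ P P' : Place K Ω, zz K Ω ∈ P.ring → P.val (zz K Ω) ∉ B0 → zz K Ω ∈ P'.ring →
      P'.val (zz K Ω) ∉ B0 → h P' = h P := by
    intro P P' hP hPB hP' hPB'
    obtain ⟨i, hi⟩ := hcov P
    have h1 := hc i P hi
    rw [h1]
    exact hB (c i) P P' hP (hB0 i _ hPB) hP' (hB0 i _ hPB') h1
  -- nearby good places
  have hnear : ∀ P0 : Place K Ω, ∃ P : Place K Ω, zz K Ω ∈ P.ring ∧ P.val (zz K Ω) ∉ B0 ∧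
      h P = h P0 := by
    intro P0
    obtain ⟨i, hi⟩ := hcov P0
    have hmem : ∀ f : Ω, f ∈ ulim (pure P0 : Ultrafilter (Place K Ω)) ↔
        f ∈ P0.ring ∧ ‖P0.val f‖ ≤ 1 := by
      intro f
      rw [mem_ulim]
      exact Filter.eventually_pure
    obtain ⟨T', hT', hσ⟩ := hOPN K Ω (ulim (pure P0 : Ultrafilter (Place K Ω))) (T i)
      (fun t ht => (hmem t).2 (hi t ht))
    have hP0 : P0 ∈ DomR (Ω := Ω) T' := fun t ht => (hmem _).1 (hT' t ht)
    obtain ⟨hn1, hn2⟩ := hNEA K Ω P0 T' hP0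
    obtain ⟨P, hP, hPB, hPT⟩ : ∃ P : Place K Ω, zz K Ω ∈ P.ring ∧ P.val (zz K Ω) ∉ B0 ∧
        P ∈ DomR (Ω := Ω) T' := by
      by_cases hz : zz K Ω ∈ P0.ring
      · obtain ⟨r, hr, hr'⟩ := hn1 hz
        have hinf : (closedBall (P0.val (zz K Ω)) r).Infinite :=
          infinite_of_mem_nhds _ (closedBall_mem_nhds _ hr)
        obtain ⟨a, ha, haB⟩ := hinf.exists_notMem_finset B0
        obtain ⟨P, hP, hPa⟩ := hz1 a
        refine ⟨P, hP, by rw [hPa]; exact haB, hr' P hP ?_⟩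
        rw [hPa, ← dist_eq_norm]
        exact ha
      · obtain ⟨R, hR⟩ := hn2 hz
        obtain ⟨a, ha⟩ := NormedField.exists_lt_norm K (max R (∑ b ∈ B0, ‖b‖))
        obtain ⟨P, hP, hPa⟩ := hz1 a
        refine ⟨P, hP, ?_, hR P fun _ => ?_⟩
        · rw [hPa]
          intro haB
          have h1 : ‖a‖ ≤ ∑ b ∈ B0, ‖b‖ :=
            Finset.single_le_sum (f := fun b : K => ‖b‖) (fun b _ => norm_nonneg b) haB
          exact absurd (h1.trans (le_max_right _ _)) (not_le.2 ha)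
        · rw [hPa]
          exact (le_max_left _ _).trans ha.le
    obtain ⟨σ, hσ⟩ := hσ P hPT
    have hzσ : σ (zz K Ω) = zz K Ω := σ.commutes _
    refine ⟨P.gact σ, ?_, ?_, ?_⟩
    · rw [Place.mem_gact, hzσ]
      exact hP
    · rw [Place.val_gact, hzσ]
      exact hPB
    · rw [hc i _ hσ, hc i P0 hi]
  intro P P'
  obtain ⟨P1, h1, h2, h3⟩ := hnear P
  obtain ⟨P2, h4, h5, h6⟩ := hnear P'
  rw [← h3, ← h6]
  exact hgood P2 P1 h4 h5 h1 h2

end PUC
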