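import Pool.Agent.H77.PUC.StmtsE

/-!
# Project PUC, module DPR: the derivation with `∂ x = 0` preserves all valuation rings
-/

universe u

namespace PUC

open Polynomial

/-- `x` is not a root of a non-constant polynomial of the form `x^(2g+1) + s x - b` -/
theorem DPR_tr {K F : Type u} [Field K] [Field F] [Algebra K F] {x : F} (hx : Transcendental K x)
    (g : ℕ) (hg : 1 ≤ g) (s b : K)
    (h : x ^ (2 * g + 1) + algebraMap K F s * x = algebraMap K F b) : False := by
  apply hx
  refine ⟨X ^ (2 * g + 1) + (C s * X - C b), ?_, ?_⟩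
  · intro h0
    have h1 := congrArg (fun q : K[X] => q.coeff (2 * g + 1)) h0
    simp only [coeff_add, coeff_X_pow, coeff_sub, coeff_C_mul, coeff_zero, if_true] at h1
    rw [coeff_X, coeff_C, if_neg (by omega), if_neg (by omega)] at h1
    simp at h1
  · simp only [map_add, map_sub, map_mul, map_pow, aeval_X, aeval_C]
    rw [← add_sub_assoc, h, sub_self]

theorem sDpr (hU : SUni.{u}) (hG : SGen.{u}) (hI : SIca.{u}) : SDpr.{u} := by
  intro K F L _ _ _ _ _ _ _ _ _ _ g s0 x y hg hs0 hC hUnr D D' hD hDx P f hf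
  set ι : F →ₐ[K] L := IsScalarTower.toAlgHom K F L with hι
  have hιa : ∀ a, ι a = algebraMap F L a := fun a => rfl
  have hinj : Function.Injective (algebraMap F L) := (algebraMap F L).injective
  have hKL : ∀ c : K, algebraMap F L (algebraMap K F c) = algebraMap K L c := fun c =>
    (IsScalarTower.algebraMap_apply K F L c).symm
  -- `D' y = 0`
  have hDs : D' (algebraMap K L s0) = 0 := by
    rw [hD]
    rcases hs0 with h | h
    · rw [h, map_zero, map_zero]
    · rw [h, Derivation.map_one_eq_zero, map_zero]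
  have h2y : (2 : L) * algebraMap F L y + 1 ≠ 0 := by
    intro h0
    have h1 : (2 : F) * y + 1 = 0 := by
      apply hinj
      rw [map_add, map_mul, map_ofNat, map_one, map_zero]
      exact h0
    have : CharZero F := charZero_of_injective_algebraMap (algebraMap K F).injective
    have h2 : y = algebraMap K F (-1 / 2) := by
      rw [map_div₀, map_neg, map_one, map_ofNat]
      have : (2 : F) ≠ 0 := two_ne_zero
      field_simp
      linear_combination h1
    refine DPR_tr hC.trans g hg s0 ((-1 / 2) ^ 2 + (-1 / 2)) ?_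
    rw [← hC.eqn, map_add, map_pow, ← h2]
  have hDy : D' (algebraMap F L y) = 0 := by
    have h1 := congrArg (algebraMap F L) hC.eqn
    simp only [map_add, map_mul, map_pow, hKL] at h1
    have h2 := congrArg D' h1
    simp only [map_add, Derivation.leibniz, Derivation.leibniz_pow, hDx, hDs, smul_zero,
      add_zero, smul_eq_mul, mul_zero] at h2
    have h3 : (2 * algebraMap F L y + 1) * D' (algebraMap F L y) = 0 := by
      rw [← h2]
      simp only [nsmul_eq_mul, Nat.cast_ofNat, pow_one, Nat.add_one_sub_one]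
      ring
    exact (mul_eq_zero.1 h3).resolve_left h2y
  -- a uniformizer
  obtain ⟨hG1, hG2⟩ := hG K F g s0 x y hg hs0 hC (P.comap ι)
  have hdiv : D' (algebraMap F L (y / x ^ (g + 1))) = 0 := by
    rw [map_div₀, map_pow, Derivation.leibniz_div, Derivation.leibniz_pow, hDx, hDy]
    simp
  obtain ⟨t0, ht0, hDt⟩ : ∃ t0 : F, IsUnif (P.comap ι) t0 ∧ D' (algebraMap F L t0) ∈ P.ring := by
    by_cases hx : x ∈ (P.comap ι).ring
    · rcases hG1 hx with h | h
      · refine ⟨_, h, ?_⟩
        rw [map_sub, map_sub, hDx, hKL, hD, zero_sub]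
        exact P.ring.neg_mem _ (P.alg_mem _)
      · refine ⟨_, h, ?_⟩
        rw [map_sub, map_sub, hDy, hKL, hD, zero_sub]
        exact P.ring.neg_mem _ (P.alg_mem _)
    · exact ⟨_, hG2 hx, by rw [hdiv]; exact P.ring.zero_mem⟩
  have hnu : ∀ a : F, a ∈ (P.comap ι).ring.nonunits ↔ algebraMap F L a ∈ P.ring.nonunits :=
    fun a => P.comap_nonunits ι a
  have ht0ne : t0 ≠ 0 := by
    rintro rfl
    by_cases hx : x ∈ (P.comap ι).ring
    · obtain ⟨h, -, h1⟩ := ht0.2 _ ((P.comap ι).sub_val hx)
      rw [mul_zero, sub_eq_zero] at h1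
      refine hC.trans ?_
      rw [h1]
      exact isAlgebraic_algebraMap _
    · have h2 : x⁻¹ ∈ (P.comap ι).ring.nonunits := by
        rw [ValuationSubring.mem_nonunits_iff_or, inv_inv]
        exact Or.inr hx
      obtain ⟨h, -, h1⟩ := ht0.2 _ h2
      rw [mul_zero, inv_eq_zero] at h1
      refine hC.trans ?_
      rw [h1]
      exact isAlgebraic_zero
  have htr : Transcendental K (algebraMap F L t0) := by
    intro h
    have h1 : IsAlgebraic K t0 := (isAlgebraic_algebraMap_iff hinj).1 h
    obtain ⟨c, hc⟩ := IsAlgClosed.algebraMap_bijective_of_isIntegral (k := K)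
      (K := integralClosure K F) |>.2 ⟨t0, h1.isIntegral⟩
    have h2 : t0 = algebraMap K F c := by
      have := congrArg Subtype.val hc
      simpa using this.symm
    have h3 := (P.comap ι).alg_nonunit (c := c) (by rw [← h2]; exact ht0.1)
    rw [h3, map_zero] at h2
    exact ht0ne h2
  have hfd := (hI K F g s0 x y hC).2 L (algebraMap F L t0) htr
  refine hU K L P (algebraMap F L t0) ((map_ne_zero_iff _ hinj).2 ht0ne) ⟨(hnu _).1 ht0.1, ?_⟩
    (Algebra.IsAlgebraic.of_finite _ _) D D' hD hDt f hf
  intro a ha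
  obtain ⟨t1, h1, h, hh, he⟩ := hUnr P a ha
  obtain ⟨h', hh', he'⟩ := ht0.2 t1 ((hnu _).2 h1)
  refine ⟨h * algebraMap F L h', P.ring.mul_mem _ _ hh hh', ?_⟩
  rw [he, he', map_mul]
  ring

end PUC
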