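import Pool.Agent.H77.PUC.StmtsE

/-!
# Project PUC, module PFF: separation of the poles in finitely many disjoint sets
-/

universe u

namespace PUC

open Polynomial

section
variable {K : Type u} [Field K]

/-- the product of the linear factors of a multiset -/
noncomputable def PFF_p (S : Multiset K) : K[X] := (S.map fun x => X - C x).prod

theorem PFF_monic (S : Multiset K) : (PFF_p S).Monic :=
  monic_multiset_prod_of_monic _ _ fun a _ => monic_X_sub_C a

theorem PFF_eval {S : Multiset K} {a : K} (h : (PFF_p S).eval a = 0) : a ∈ S := by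
  induction S using Multiset.induction_on with
  | empty => simp [PFF_p] at h
  | cons b S ih =>
    have h1 : (a - b) * (PFF_p S).eval a = 0 := by
      simpa [PFF_p] using h
    rcases mul_eq_zero.1 h1 with h2 | h2
    · rw [sub_eq_zero.1 h2]
      exact Multiset.mem_cons_self _ _
    · exact Multiset.mem_cons_of_mem (ih h2)

theorem PFF_cop {S T : Multiset K} (h : ∀ a ∈ S, ∀ b ∈ T, a ≠ b) :
    IsCoprime (PFF_p S) (PFF_p T) := by
  induction S using Multiset.induction_on with
  | empty => simpa [PFF_p] using isCoprime_one_left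
  | cons a S ih =>
    have h1 : PFF_p (a ::ₘ S) = (X - C a) * PFF_p S := by simp [PFF_p]
    rw [h1]
    refine IsCoprime.mul_left ?_ (ih fun a ha b hb => h a (Multiset.mem_cons_of_mem ha) b hb)
    have h2 : ∀ b ∈ T, a ≠ b := h a (Multiset.mem_cons_self _ _)
    clear ih h h1
    induction T using Multiset.induction_on with
    | empty => simpa [PFF_p] using isCoprime_one_right
    | cons b T ih =>
      have h1 : PFF_p (b ::ₘ T) = (X - C b) * PFF_p T := by simp [PFF_p]
      rw [h1]
      refine IsCoprime.mul_right ?_ (ih fun b hb => h2 b (Multiset.mem_cons_of_mem hb))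
      refine isCoprime_X_sub_C_of_isUnit_sub ?_
      exact (sub_ne_zero.2 (h2 b (Multiset.mem_cons_self _ _))).isUnit

open Classical in
theorem PFF_prod {o : Type} [Fintype o] (cls : K → o) (S : Multiset K) :
    ∏ i, PFF_p (S.filter fun a => cls a = i) = PFF_p S := by
  induction S using Multiset.induction_on with
  | empty => simp [PFF_p]
  | cons a S ih =>
    have h1 : ∀ i, PFF_p ((a ::ₘ S).filter fun a => cls a = i) =
        (if cls a = i then X - C a else 1) * PFF_p (S.filter fun a => cls a = i) := by
      intro i
      by_cases h : cls a = i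
      · rw [Multiset.filter_cons_of_pos (p := fun a => cls a = i) S h, if_pos h]
        simp [PFF_p]
      · rw [Multiset.filter_cons_of_neg (p := fun a => cls a = i) S h, if_neg h, one_mul]
    have h2 : PFF_p (a ::ₘ S) = (X - C a) * PFF_p S := by simp [PFF_p]
    rw [Finset.prod_congr rfl fun i _ => h1 i, Finset.prod_mul_distrib, ih, h2]
    congr 1
    rw [Finset.prod_ite_eq]
    simp

theorem PFF_van {r g : K[X]} (hg : g ≠ 0) (h : r.degree < g.degree) :
    VanInf (algebraMap K[X] (RatFunc K) r / algebraMap K[X] (RatFunc K) g) := by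
  set x := algebraMap K[X] (RatFunc K) r / algebraMap K[X] (RatFunc K) g with hx
  have hd : x.denom ≠ 0 := x.denom_ne_zero
  have hinj : Function.Injective (algebraMap K[X] (RatFunc K)) := RatFunc.algebraMap_injective K
  have h1 : x.num * g = r * x.denom := by
    apply hinj
    rw [map_mul, map_mul]
    have h2 := x.num_div_denom
    have h3 : algebraMap K[X] (RatFunc K) g ≠ 0 := by
      rw [Ne, map_eq_zero_iff _ hinj]; exact hg
    have h4 : algebraMap K[X] (RatFunc K) x.denom ≠ 0 := by
      rw [Ne, map_eq_zero_iff _ hinj]; exact hd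
    rw [hx] at h2
    rw [← hx, div_eq_div_iff h4 h3] at h2
    exact h2
  have h2 : x.num.degree + g.degree = r.degree + x.denom.degree := by
    rw [← degree_mul, ← degree_mul, h1]
  unfold VanInf
  by_contra hn
  rw [not_lt] at hn
  have h3 : x.denom.degree + r.degree < x.denom.degree + g.degree :=
    WithBot.add_lt_add_left (by rwa [Ne, degree_eq_bot]) h
  have h4 : x.denom.degree + g.degree ≤ x.num.degree + g.degree := by gcongr
  rw [h2, add_comm r.degree] at h4
  exact absurd (h4.trans_lt h3) (lt_irrefl _)

theorem PFF_reg_div {r : K[X]} {S : Multiset K} {a : K} (h : a ∉ S) :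
    reg a (algebraMap K[X] (RatFunc K) r / algebraMap K[X] (RatFunc K) (PFF_p S)) := by
  intro h1
  obtain ⟨c, hc⟩ := RatFunc.denom_div_dvd r (PFF_p S)
  apply h
  apply PFF_eval
  rw [hc, eval_mul, h1, zero_mul]

theorem PFF_reg_add {a : K} {x y : RatFunc K} (hx : reg a x) (hy : reg a y) : reg a (x + y) := by
  intro h1
  obtain ⟨c, hc⟩ := RatFunc.denom_add_dvd x y
  have h2 : (x.denom * y.denom).eval a = 0 := by rw [hc, eval_mul, h1, zero_mul]
  rw [eval_mul] at h2
  exact (mul_ne_zero hx hy) h2

theorem PFF_reg_poly {a : K} (q : K[X]) : reg a (algebraMap K[X] (RatFunc K) q) := by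
  unfold reg
  rw [RatFunc.denom_algebraMap, eval_one]
  exact one_ne_zero

end

theorem sPff : SPff.{u} := by
  classical
  intro K _ _ b n D hD
  let cls : K → Option (Fin n) := fun a => if h : ∃ i, a ∈ D i then some h.choose else none
  have hcls : ∀ a i, cls a = some i ↔ a ∈ D i := by
    intro a i
    constructor
    · intro h
      simp only [cls] at h
      split_ifs at h with h1
      rw [← Option.some.inj h]
      exact h1.choose_spec
    · intro h
      have h1 : ∃ i, a ∈ D i := ⟨i, h⟩
      simp only [cls, dif_pos h1]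
      congr 1
      by_contra h2
      exact Set.disjoint_left.1 (hD _ _ h2) h1.choose_spec h
  let S := b.denom.roots
  let T : Option (Fin n) → Multiset K := fun o => S.filter fun a => cls a = o
  have hden : b.denom = ∏ o, PFF_p (T o) := by
    have h1 := PFF_prod cls S
    have h2 : PFF_p S = b.denom :=
      ((IsAlgClosed.splits _).eq_prod_roots_of_monic b.monic_denom).symm
    rw [← h2, ← h1]
    exact Finset.prod_congr rfl fun o _ => by congr
  obtain ⟨q, r, hr, he⟩ := Polynomial.div_prod_eq_quo_add_sum_rem_div (RatFunc K) b.num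
    (g := fun o => PFF_p (T o)) (s := Finset.univ) (fun o _ => PFF_monic _) (by
      intro o _ o' _ hne
      apply PFF_cop
      rintro a ha b hb rfl
      exact hne ((Multiset.mem_filter.1 ha).2.symm.trans (Multiset.mem_filter.1 hb).2))
  have hb : b = algebraMap K[X] (RatFunc K) q + ∑ o, algebraMap K[X] (RatFunc K) (r o) /
      algebraMap K[X] (RatFunc K) (PFF_p (T o)) := by
    rw [← b.num_div_denom, hden, map_prod]
    exact he
  refine ⟨fun i => algebraMap K[X] (RatFunc K) (r (some i)) /
      algebraMap K[X] (RatFunc K) (PFF_p (T (some i))),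
    algebraMap K[X] (RatFunc K) q + algebraMap K[X] (RatFunc K) (r none) /
      algebraMap K[X] (RatFunc K) (PFF_p (T none)), ?_, ?_, ?_, ?_, ?_⟩
  · conv_lhs => rw [hb]
    rw [Fintype.sum_option]
    ring
  · intro i
    exact PFF_van (PFF_monic _).ne_zero (hr _ (Finset.mem_univ _))
  · intro i a ha
    apply PFF_reg_div
    intro h
    exact ha ((hcls a i).1 (Multiset.mem_filter.1 h).2)
  · intro i a ha
    refine PFF_reg_add (PFF_reg_poly q) (PFF_reg_div ?_)
    intro h
    have h1 := (Multiset.mem_filter.1 h).2
    rw [(hcls a i).2 ha] at h1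
    exact absurd h1 (by simp)
  · intro a ha
    have h0 : a ∉ S := by
      intro h
      exact ha (Polynomial.isRoot_of_mem_roots h)
    have h1 : ∀ o, a ∉ T o := fun o h => h0 (Multiset.mem_filter.1 h).1
    exact ⟨fun i => PFF_reg_div (h1 _), PFF_reg_add (PFF_reg_poly q) (PFF_reg_div (h1 _))⟩

end PUC
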