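import Pool.Agent.H77.PUC.StmtsE

/-!
# Project PUC, module UNI: a derivation preserves the valuation ring if it does not lower the
uniformizer
-/

universe u

namespace PUC

open Polynomial

section
variable {K L : Type u} [Field K] [Field L] [Algebra K L] (P : Place K L) {t : L}

theorem UNI_val_t (ht : t ∈ P.ring.nonunits) : P.val t = 0 := P.val_eq_zero_of_nonunit ht

/-- polynomials in `t` with non-zero constant term are units -/
theorem UNI_unit (ht : t ∈ P.ring.nonunits) {Q : K[X]} (hQ : Q.eval 0 ≠ 0) :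
    (aeval t Q)⁻¹ ∈ P.ring := by
  apply P.inv_mem_of_val (P.aeval_mem (P.nonunits_mem ht) Q)
  rw [P.val_aeval (P.nonunits_mem ht), UNI_val_t P ht]
  exact hQ

theorem UNI_split (Q : K[X]) (hQ : Q ≠ 0) : ∃ (n : ℕ) (Q' : K[X]), Q'.eval 0 ≠ 0 ∧
    Q = X ^ n * Q' := by
  obtain ⟨q, hq, hq'⟩ := exists_eq_pow_rootMultiplicity_mul_and_not_dvd Q hQ 0
  refine ⟨_, q, ?_, by rw [C_0, sub_zero] at hq; exact hq⟩
  intro h
  exact hq' (dvd_iff_isRoot.2 h)

/-- negative powers of `t` are not in the valuation ring -/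
theorem UNI_neg (ht : t ∈ P.ring.nonunits) (ht0 : t ≠ 0) {n : ℕ} (hn : 0 < n) :
    (t ^ n)⁻¹ ∉ P.ring := by
  apply P.inv_not_mem (P.pow_mem (P.nonunits_mem ht) n) _ (pow_ne_zero n ht0)
  rw [P.val_pow (P.nonunits_mem ht), UNI_val_t P ht, zero_pow hn.ne']

/-- elements of `K(t)` -/
theorem UNI_rat (ht : t ∈ P.ring.nonunits) (ht0 : t ≠ 0) {c : L}
    (hc : c ∈ IntermediateField.adjoin K {t}) (hc0 : c ≠ 0) :
    ∃ (n m : ℕ) (a b : K[X]), a.eval 0 ≠ 0 ∧ b.eval 0 ≠ 0 ∧
      c * t ^ m = t ^ n * (aeval t a / aeval t b) := by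
  rw [IntermediateField.mem_adjoin_simple_iff] at hc
  obtain ⟨r, s, hrs⟩ := hc
  have hr : r ≠ 0 := by
    rintro rfl
    rw [map_zero, zero_div] at hrs
    exact hc0 hrs
  have hs : s ≠ 0 := by
    rintro rfl
    rw [map_zero, div_zero] at hrs
    exact hc0 hrs
  obtain ⟨n, a, ha, hra⟩ := UNI_split r hr
  obtain ⟨m, b, hb, hsb⟩ := UNI_split s hs
  refine ⟨n, m, a, b, ha, hb, ?_⟩
  have h1 : aeval t b ≠ 0 := by
    intro h
    have h2 := UNI_unit P ht hb
    have h3 := P.val_aeval (P.nonunits_mem ht) b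
    rw [h, P.val_zero, UNI_val_t P ht] at h3
    exact hb h3.symm
  have h2 : t ^ m ≠ 0 := pow_ne_zero m ht0
  rw [hrs, hra, hsb]
  simp only [map_mul, map_pow, aeval_X]
  field_simp

/-- denominators -/
theorem UNI_den (ht : t ∈ P.ring.nonunits) (ht0 : t ≠ 0) {c : L}
    (hc : c ∈ IntermediateField.adjoin K {t}) : ∃ r : ℕ, ∀ r' ≥ r, t ^ r' * c ∈ P.ring := by
  by_cases hc0 : c = 0
  · exact ⟨0, fun r' _ => by rw [hc0, mul_zero]; exact P.ring.zero_mem⟩
  obtain ⟨n, m, a, b, ha, hb, h⟩ := UNI_rat P ht ht0 hc hc0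
  refine ⟨m, fun r' hr' => ?_⟩
  obtain ⟨d, rfl⟩ := Nat.exists_eq_add_of_le hr'
  have h1 : t ^ (m + d) * c = t ^ d * (t ^ n * (aeval t a * (aeval t b)⁻¹)) := by
    rw [← div_eq_mul_inv, ← h, pow_add]
    ring
  rw [h1]
  have hm := P.nonunits_mem ht
  exact P.ring.mul_mem _ _ (P.pow_mem hm d) (P.ring.mul_mem _ _ (P.pow_mem hm n)
    (P.ring.mul_mem _ _ (P.aeval_mem hm a) (UNI_unit P ht hb)))

/-- elements of `K(t)` in the valuation ring -/
theorem UNI_rat_int (ht : t ∈ P.ring.nonunits) (ht0 : t ≠ 0) {c : L}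
    (hc : c ∈ IntermediateField.adjoin K {t}) (hcP : c ∈ P.ring) :
    ∃ a b : K[X], b.eval 0 ≠ 0 ∧ c = aeval t a / aeval t b := by
  by_cases hc0 : c = 0
  · exact ⟨0, 1, by simp, by simp [hc0]⟩
  obtain ⟨n, m, a, b, ha, hb, h⟩ := UNI_rat P ht ht0 hc hc0
  have hm := P.nonunits_mem ht
  rcases le_or_gt m n with hmn | hmn
  · obtain ⟨d, rfl⟩ := Nat.exists_eq_add_of_le hmn
    refine ⟨X ^ d * a, b, hb, ?_⟩
    have h2 : t ^ m ≠ 0 := pow_ne_zero m ht0
    have h3 : c = t ^ d * (aeval t a / aeval t b) := by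
      have : c * t ^ m = (t ^ d * (aeval t a / aeval t b)) * t ^ m := by
        rw [h, pow_add]
        ring
      exact mul_right_cancel₀ h2 this
    rw [h3, map_mul, map_pow, aeval_X]
    ring
  · exfalso
    obtain ⟨d, rfl⟩ := Nat.exists_eq_add_of_lt hmn
    apply UNI_neg P ht ht0 (n := d + 1) (Nat.succ_pos d)
    have h2 : t ^ n ≠ 0 := pow_ne_zero n ht0
    have h4 : t ^ (d + 1) ≠ 0 := pow_ne_zero _ ht0
    have ha' : aeval t a ≠ 0 := by
      intro h0
      have h3 := P.val_aeval hm a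
      rw [h0, P.val_zero, UNI_val_t P ht] at h3
      exact ha h3.symm
    have h3 : (t ^ (d + 1))⁻¹ = c * ((aeval t a)⁻¹ * aeval t b) := by
      have hb' : aeval t b ≠ 0 := by
        intro h0
        have h3 := P.val_aeval hm b
        rw [h0, P.val_zero, UNI_val_t P ht] at h3
        exact hb h3.symm
      have h5 : c * t ^ (d + 1) * t ^ n = aeval t a / aeval t b * t ^ n := by
        rw [mul_assoc, ← pow_add, mul_comm (aeval t a / aeval t b), ← h]
        congr 2
        omega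
      have h6 := mul_right_cancel₀ h2 h5
      rw [eq_div_iff hb'] at h6
      rw [inv_eq_iff_eq_inv, eq_comm, inv_eq_iff_eq_inv, eq_comm]
      field_simp
      rw [← h6]
      ring
    rw [h3]
    exact P.ring.mul_mem _ _ hcP (P.ring.mul_mem _ _ (UNI_unit P ht ha) (P.aeval_mem hm b))

/-- non-zero elements of the valuation ring are powers of `t` times units -/
theorem UNI_ord (ht : t ∈ P.ring.nonunits) (ht0 : t ≠ 0)
    (hdiv : ∀ f ∈ P.ring.nonunits, ∃ h ∈ P.ring, f = h * t)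
    [Algebra.IsAlgebraic (IntermediateField.adjoin K {t}) L] {f : L} (hf : f ∈ P.ring)
    (hf0 : f ≠ 0) : ∃ (k : ℕ) (w : L), f = t ^ k * w ∧ w ∈ P.ring ∧ P.val w ≠ 0 := by
  have hm := P.nonunits_mem ht
  -- a non-zero element of `K(t)` divisible by `f`
  obtain ⟨c, hcF, hc0, hcd⟩ : ∃ c ∈ IntermediateField.adjoin K {t}, c ≠ 0 ∧
      ∃ e ∈ P.ring, c = f * e := by
    set F := IntermediateField.adjoin K {t} with hF
    have hint : IsIntegral F f := (Algebra.IsAlgebraic.isAlgebraic f).isIntegral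
    set μ := minpoly F f with hμ
    have h0 : μ.coeff 0 ≠ 0 := minpoly.coeff_zero_ne_zero hint hf0
    have hden : ∃ r : ℕ, ∀ i ∈ Finset.range (μ.natDegree + 1), ∀ r' ≥ r,
        t ^ r' * (μ.coeff i : L) ∈ P.ring := by
      choose r hr using fun i : ℕ => UNI_den P ht ht0 (μ.coeff i).2
      refine ⟨∑ i ∈ Finset.range (μ.natDegree + 1), r i, fun i hi r' hr' => hr i r' ?_⟩
      exact (Finset.single_le_sum (f := r) (fun _ _ => Nat.zero_le _) hi).trans hr'
    obtain ⟨r, hr⟩ := hden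
    refine ⟨t ^ r * (μ.coeff 0 : L), ?_, ?_, ?_⟩
    · exact F.mul_mem (pow_mem (IntermediateField.mem_adjoin_simple_self K t) r) (μ.coeff 0).2
    · exact mul_ne_zero (pow_ne_zero r ht0) (by simpa using h0)
    · have h1 : aeval f μ = 0 := minpoly.aeval F f
      rw [aeval_eq_sum_range, Finset.sum_range_succ'] at h1
      refine ⟨-∑ i ∈ Finset.range μ.natDegree, (t ^ r * (μ.coeff (i + 1) : L)) * f ^ i, ?_, ?_⟩
      · refine P.ring.neg_mem _ (P.sum_mem _ _ fun i hi => ?_)
        refine P.ring.mul_mem _ _ (hr (i + 1) ?_ r le_rfl) (P.pow_mem hf i)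
        rw [Finset.mem_range] at hi ⊢
        omega
      · have h2 : (μ.coeff 0 : L) = -∑ i ∈ Finset.range μ.natDegree,
            (μ.coeff (i + 1) : L) * f ^ (i + 1) := by
          have h3 : ∀ (a : F) (x : L), a • x = (a : L) * x := fun a x => rfl
          simp only [h3, pow_zero, mul_one] at h1
          linear_combination h1
        rw [h2, mul_neg, mul_neg, Finset.mul_sum, Finset.mul_sum]
        congr 1
        refine Finset.sum_congr rfl fun i _ => ?_
        ring
  -- `f` is not infinitely divisible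
  have hex : ∃ n : ℕ, f / t ^ n ∉ P.ring := by
    by_contra hcon
    push Not at hcon
    obtain ⟨n, m, a, b, ha, hb, h⟩ := UNI_rat P ht ht0 hcF hc0
    obtain ⟨e, he, hce⟩ := hcd
    apply UNI_neg P ht ht0 (n := 1) one_pos
    have ha' : aeval t a ≠ 0 := by
      intro h0
      have h3 := P.val_aeval hm a
      rw [h0, P.val_zero, UNI_val_t P ht] at h3
      exact ha h3.symm
    have hb' : aeval t b ≠ 0 := by
      intro h0
      have h3 := P.val_aeval hm b
      rw [h0, P.val_zero, UNI_val_t P ht] at h3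
      exact hb h3.symm
    have h1 : (t ^ 1)⁻¹ = (f / t ^ (n + 1)) * e * t ^ m * ((aeval t a)⁻¹ * aeval t b) := by
      have h2 : (f / t ^ (n + 1)) * e * t ^ m = (c * t ^ m) / t ^ (n + 1) := by
        rw [hce]
        ring
      rw [h2, h]
      have : t ^ n ≠ 0 := pow_ne_zero n ht0
      have h6 : t ^ (n + 1) = t ^ n * t := pow_succ t n
      rw [h6]
      field_simp
    rw [h1]
    exact P.ring.mul_mem _ _ (P.ring.mul_mem _ _ (P.ring.mul_mem _ _ (hcon _) he)
      (P.pow_mem hm m)) (P.ring.mul_mem _ _ (UNI_unit P ht ha) (P.aeval_mem hm b))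
  classical
  have hk := Nat.find_spec hex
  have hk0 : Nat.find hex ≠ 0 := by
    intro h0
    rw [h0, pow_zero, div_one] at hk
    exact hk hf
  obtain ⟨k, hk'⟩ := Nat.exists_eq_succ_of_ne_zero hk0
  have h1 : f / t ^ k ∈ P.ring := by
    by_contra h
    have := Nat.find_min' hex h
    omega
  refine ⟨k, f / t ^ k, ?_, h1, ?_⟩
  · have : t ^ k ≠ 0 := pow_ne_zero k ht0
    field_simp
  · intro h0
    obtain ⟨h, hh, he⟩ := hdiv _ (P.nonunit_of_val_eq_zero h1 h0)
    apply hk
    rw [hk']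
    have h2 : f / t ^ (k.succ) = h := by
      have : t ^ k ≠ 0 := pow_ne_zero k ht0
      rw [div_eq_iff this] at he
      rw [he, Nat.succ_eq_add_one, pow_succ]
      field_simp
    rw [h2]
    exact hh

/-- expansions -/
theorem UNI_exp (hdiv : ∀ f ∈ P.ring.nonunits, ∃ h ∈ P.ring, f = h * t) {h : L}
    (hh : h ∈ P.ring) (n : ℕ) : ∃ (q : K[X]) (g : L), g ∈ P.ring ∧ h = aeval t q + t ^ n * g := by
  induction n with
  | zero => exact ⟨0, h, hh, by simp⟩
  | succ n ih =>
    obtain ⟨q, g, hg, he⟩ := ih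
    obtain ⟨g', hg', he'⟩ := hdiv _ (P.sub_val hg)
    refine ⟨q + C (P.val g) * X ^ n, g', hg', ?_⟩
    have h1 : g = algebraMap K L (P.val g) + g' * t := by rw [← he']; ring
    rw [map_add, map_mul, map_pow, aeval_X, aeval_C, he]
    conv_lhs => rw [h1]
    rw [pow_succ]
    ring

/-- evaluation of a polynomial with coefficients in the valuation ring -/
theorem UNI_eval {N : L[X]} (hN : ∀ i, N.coeff i ∈ P.ring) {g : L} (hg : g ∈ P.ring) :
    N.eval g ∈ P.ring := by
  rw [eval_eq_sum_range]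
  exact P.sum_mem _ _ fun i _ => P.ring.mul_mem _ _ (hN i) (P.pow_mem hg i)

theorem UNI_nat (n : ℕ) : (n : L) ∈ P.ring := by
  have := P.alg_mem (n : K)
  rwa [map_natCast] at this

theorem UNI_deriv {N : L[X]} (hN : ∀ i, N.coeff i ∈ P.ring) (i : ℕ) :
    (derivative N).coeff i ∈ P.ring := by
  rw [coeff_derivative]
  refine P.ring.mul_mem _ _ (hN _) ?_
  have := UNI_nat P (i + 1)
  push_cast at this
  exact this

end

section der
variable {K L : Type u} [Field K] [Field L] [Algebra K L] (P : Place K L) {t : L}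
  (D : Derivation ℤ K K) (D' : Derivation ℤ L L)

theorem UNI_D_poly (hD : ∀ c : K, D' (algebraMap K L c) = algebraMap K L (D c))
    (ht : t ∈ P.ring) (hDt : D' t ∈ P.ring) (Q : K[X]) : D' (aeval t Q) ∈ P.ring := by
  induction Q using Polynomial.induction_on' with
  | add p q hp hq =>
    rw [map_add, map_add]
    exact P.ring.add_mem _ _ hp hq
  | monomial n a =>
    rw [aeval_monomial, Derivation.leibniz, Derivation.leibniz_pow, hD]
    simp only [smul_eq_mul, nsmul_eq_mul]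
    refine P.ring.add_mem _ _ (P.ring.mul_mem _ _ (P.alg_mem a) (P.ring.mul_mem _ _ ?_
      (P.ring.mul_mem _ _ (P.pow_mem ht _) hDt))) (P.ring.mul_mem _ _ (P.pow_mem ht n)
      (P.alg_mem _))
    exact UNI_nat P n

theorem UNI_D_rat (hD : ∀ c : K, D' (algebraMap K L c) = algebraMap K L (D c))
    (ht : t ∈ P.ring.nonunits) (ht0 : t ≠ 0) (hDt : D' t ∈ P.ring) {c : L}
    (hc : c ∈ IntermediateField.adjoin K {t}) (hcP : c ∈ P.ring) : D' c ∈ P.ring := by
  obtain ⟨a, b, hb, rfl⟩ := UNI_rat_int P ht ht0 hc hcP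
  have hm := P.nonunits_mem ht
  have h1 := UNI_unit P ht hb
  rw [Derivation.leibniz_div]
  simp only [smul_eq_mul]
  rw [inv_pow]
  refine P.ring.mul_mem _ _ ?_ (P.ring.sub_mem ?_ ?_)
  · rw [← inv_pow]
    exact P.pow_mem h1 2
  · exact P.ring.mul_mem _ _ (P.aeval_mem hm b) (UNI_D_poly P D D' hD hm hDt a)
  · exact P.ring.mul_mem _ _ (P.aeval_mem hm a) (UNI_D_poly P D D' hD hm hDt b)

theorem UNI_D_eval {N : L[X]} (hN : ∀ i, D' (N.coeff i) ∈ P.ring) {g : L} (hg : g ∈ P.ring) :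
    ∃ E ∈ P.ring, D' (N.eval g) = E + (derivative N).eval g * D' g := by
  refine ⟨∑ i ∈ N.support, D' (N.coeff i) * g ^ i, P.sum_mem _ _ fun i _ =>
    P.ring.mul_mem _ _ (hN i) (P.pow_mem hg i), ?_⟩
  rw [derivative_eval, Polynomial.sum_def, Finset.sum_mul, ← Finset.sum_add_distrib,
    eval_eq_sum, Polynomial.sum_def, map_sum]
  refine Finset.sum_congr rfl fun i _ => ?_
  rw [Derivation.leibniz, Derivation.leibniz_pow]
  simp only [smul_eq_mul, nsmul_eq_mul]
  ring

end der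

theorem sUni : SUni.{u} := by
  intro K L _ _ _ _ P t ht0 htu halg D D' hD hDt f hf
  obtain ⟨ht, hdiv⟩ := htu
  have hm := P.nonunits_mem ht
  set F := IntermediateField.adjoin K {t} with hF
  have htF : t ∈ F := IntermediateField.mem_adjoin_simple_self K t
  have hKF : ∀ Q : K[X], aeval t Q ∈ F := by
    intro Q
    rw [hF, IntermediateField.mem_adjoin_simple_iff]
    exact ⟨Q, 1, by simp⟩
  have hDF : ∀ c ∈ F, c ∈ P.ring → D' c ∈ P.ring := fun c hc hcP =>
    UNI_D_rat P D D' hD ht ht0 hDt hc hcP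
  have : CharZero F := charZero_of_injective_algebraMap (algebraMap K F).injective
  have hint : IsIntegral F f := (Algebra.IsAlgebraic.isAlgebraic f).isIntegral
  set μ := minpoly F f with hμ
  have hsep : μ.Separable := (minpoly.irreducible hint).separable
  have hder : aeval f (derivative μ) ≠ 0 := hsep.aeval_derivative_ne_zero (minpoly.aeval F f)
  have hden : ∃ r : ℕ, ∀ i : ℕ, t ^ r * (μ.coeff i : L) ∈ P.ring := by
    choose r hr using fun i : ℕ => UNI_den P ht ht0 (μ.coeff i).2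
    refine ⟨∑ i ∈ Finset.range (μ.natDegree + 1), r i, fun i => ?_⟩
    by_cases hi : i ∈ Finset.range (μ.natDegree + 1)
    · exact hr i _ (Finset.single_le_sum (f := r) (fun _ _ => Nat.zero_le _) hi)
    · rw [coeff_eq_zero_of_natDegree_lt (by rw [Finset.mem_range] at hi; omega)]
      simp [P.ring.zero_mem]
  obtain ⟨r, hr⟩ := hden
  -- the polynomial
  set m : L[X] := C (t ^ r) * μ.map (algebraMap F L) with hmdef
  have hmc : ∀ i, m.coeff i = t ^ r * (μ.coeff i : L) := by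
    intro i
    rw [hmdef, coeff_C_mul, coeff_map]
    rfl
  have hmP : ∀ i, m.coeff i ∈ P.ring := fun i => by rw [hmc]; exact hr i
  have hmF : ∀ i, m.coeff i ∈ F := fun i => by
    rw [hmc]
    exact F.mul_mem (pow_mem htF r) (μ.coeff i).2
  have hm0 : m.eval f = 0 := by
    rw [hmdef, eval_mul, eval_map_algebraMap, minpoly.aeval, mul_zero]
  have hm1 : (derivative m).eval f ≠ 0 := by
    rw [hmdef, derivative_C_mul, eval_mul, eval_C, derivative_map, eval_map_algebraMap]
    exact mul_ne_zero (pow_ne_zero r ht0) hder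
  obtain ⟨k, w, hkw, hw, hw0⟩ := UNI_ord P ht ht0 hdiv
    (UNI_eval P (UNI_deriv P hmP) hf) hm1
  obtain ⟨q, g, hg, hfq⟩ := UNI_exp P hdiv hf (k + 1)
  set Q := aeval t q with hQ
  have hQP : Q ∈ P.ring := P.aeval_mem hm q
  have hQF : Q ∈ F := hKF q
  -- the Taylor expansion
  set M : L[X] := taylor Q m with hM
  have hMP : ∀ i, M.coeff i ∈ P.ring := by
    intro i
    rw [hM, taylor_coeff]
    refine UNI_eval P (fun j => ?_) hQP
    rw [hasseDeriv_coeff]
    exact P.ring.mul_mem _ _ (UNI_nat P _) (hmP _)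
  have hMF : ∀ i, M.coeff i ∈ F := by
    intro i
    rw [hM, taylor_coeff, eval_eq_sum_range]
    refine F.sum_mem fun j _ => F.mul_mem ?_ (pow_mem hQF j)
    rw [hasseDeriv_coeff]
    exact F.mul_mem (natCast_mem F _) (hmF _)
  set n := k + 1 with hn
  have hMe : M.eval (t ^ n * g) = 0 := by
    rw [hM, taylor_eval, add_comm, ← hfq, hm0]
  have hMd : (derivative M).eval (t ^ n * g) = t ^ k * w := by
    have h1 : derivative M = taylor Q (derivative m) := by
      rw [hM, taylor_apply, taylor_apply, derivative_comp]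
      simp
    rw [h1, taylor_eval, add_comm, ← hfq, hkw]
  -- remainders
  set M2 : L[X] := divX (divX M) with hM2
  have hM2P : ∀ i, M2.coeff i ∈ P.ring := fun i => by
    rw [hM2, coeff_divX, coeff_divX]
    exact hMP _
  have hM2F : ∀ i, M2.coeff i ∈ F := fun i => by
    rw [hM2, coeff_divX, coeff_divX]
    exact hMF _
  have hMx : M = M2 * X ^ 2 + C (M.coeff 1) * X + C (M.coeff 0) := by
    have h1 := divX_mul_X_add M
    have h2 := divX_mul_X_add (divX M)
    rw [coeff_divX, zero_add, ← hM2] at h2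
    rw [← h2] at h1
    conv_lhs => rw [← h1]
    ring
  have hyP : t ^ n * g ∈ P.ring := P.ring.mul_mem _ _ (P.pow_mem hm n) hg
  set A := M2.eval (t ^ n * g) with hA
  have hAP : A ∈ P.ring := UNI_eval P hM2P hyP
  set B := t ^ n * g * (derivative M2).eval (t ^ n * g) + 2 * A with hB
  have hBP : B ∈ P.ring := by
    refine P.ring.add_mem _ _ (P.ring.mul_mem _ _ hyP (UNI_eval P (UNI_deriv P hM2P) hyP))
      (P.ring.mul_mem _ _ ?_ hAP)
    exact_mod_cast UNI_nat P 2
  have hE0 : M.coeff 0 = -(M.coeff 1 * (t ^ n * g) + (t ^ n * g) ^ 2 * A) := by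
    have h1 := hMe
    rw [hMx] at h1
    simp only [eval_add, eval_mul, eval_pow, eval_X, eval_C] at h1
    rw [← hA] at h1
    linear_combination h1
  have hE1 : M.coeff 1 = t ^ k * w - t ^ n * g * B := by
    have h1 := hMd
    rw [hMx] at h1
    simp only [derivative_add, derivative_mul, derivative_X_pow, derivative_C, derivative_X,
      eval_add, eval_mul, eval_pow, eval_X, eval_C] at h1
    rw [← hA] at h1
    rw [hB]
    simp at h1
    linear_combination h1
  set α1 := w - t * g * B with hα1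
  have hα1P : α1 ∈ P.ring := P.ring.sub_mem hw (P.ring.mul_mem _ _ (P.ring.mul_mem _ _ hm hg) hBP)
  have hα1' : M.coeff 1 = t ^ k * α1 := by
    rw [hE1, hα1, hn, pow_succ]
    ring
  have hα1v : P.val α1 = P.val w := by
    rw [hα1, P.val_sub hw (P.ring.mul_mem _ _ (P.ring.mul_mem _ _ hm hg) hBP),
      P.val_mul (P.ring.mul_mem _ _ hm hg) hBP, P.val_mul hm hg, UNI_val_t P ht]
    ring
  set α0 := -(α1 * g + t * g ^ 2 * A) with hα0
  have hα0P : α0 ∈ P.ring := P.ring.neg_mem _ (P.ring.add_mem _ _ (P.ring.mul_mem _ _ hα1P hg)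
    (P.ring.mul_mem _ _ (P.ring.mul_mem _ _ hm (P.pow_mem hg 2)) hAP))
  have hα0' : M.coeff 0 = t ^ (n + k) * α0 := by
    rw [hE0, hα1', hα0, hn]
    ring
  have htk : ∀ j : ℕ, t ^ j ≠ 0 := fun j => pow_ne_zero j ht0
  have hα1F : α1 ∈ F := by
    have h1 : α1 = M.coeff 1 / t ^ k := by
      rw [hα1']
      field_simp [htk k]
    rw [h1]
    exact F.div_mem (hMF 1) (pow_mem htF k)
  have hα0F : α0 ∈ F := by
    have h1 : α0 = M.coeff 0 / t ^ (n + k) := by
      rw [hα0']
      field_simp [htk (n + k)]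
    rw [h1]
    exact F.div_mem (hMF 0) (pow_mem htF _)
  -- the polynomial `N`
  set N : L[X] := M2.comp (C (t ^ n) * X) with hN
  have hNc : ∀ i, N.coeff i = M2.coeff i * (t ^ n) ^ i := by
    intro i
    rw [hN, comp_C_mul_X_coeff]
  have hNP : ∀ i, N.coeff i ∈ P.ring := fun i => by
    rw [hNc]
    exact P.ring.mul_mem _ _ (hM2P i) (P.pow_mem (P.pow_mem hm n) i)
  have hNF : ∀ i, N.coeff i ∈ F := fun i => by
    rw [hNc]
    exact F.mul_mem (hM2F i) (pow_mem (pow_mem htF n) i)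
  have hNg : N.eval g = A := by
    rw [hN, eval_comp, hA]
    simp
  obtain ⟨E, hE, hDN⟩ := UNI_D_eval P D' (N := N) (fun i => hDF _ (hNF i) (hNP i)) hg
  rw [hNg] at hDN
  have hN'P : (derivative N).eval g ∈ P.ring := UNI_eval P (UNI_deriv P hNP) hg
  have heq : α0 + α1 * g + t * g ^ 2 * A = 0 := by rw [hα0]; ring
  have hDeq := congrArg D' heq
  simp only [map_add, Derivation.leibniz, Derivation.leibniz_pow, smul_eq_mul, nsmul_eq_mul,
    map_zero, hDN] at hDeq
  set β := α1 + t * (2 * g * A + g ^ 2 * (derivative N).eval g) with hβ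
  have h2P : (2 : L) ∈ P.ring := by exact_mod_cast UNI_nat P 2
  have hβ1 : 2 * g * A + g ^ 2 * (derivative N).eval g ∈ P.ring :=
    P.ring.add_mem _ _ (P.ring.mul_mem _ _ (P.ring.mul_mem _ _ h2P hg) hAP)
      (P.ring.mul_mem _ _ (P.pow_mem hg 2) hN'P)
  have hβP : β ∈ P.ring := P.ring.add_mem _ _ hα1P (P.ring.mul_mem _ _ hm hβ1)
  have hβv : P.val β ≠ 0 := by
    rw [hβ, P.val_add hα1P (P.ring.mul_mem _ _ hm hβ1), P.val_mul hm hβ1, UNI_val_t P ht,
      zero_mul, add_zero, hα1v]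
    exact hw0
  have hβi := P.inv_mem_of_val hβP hβv
  have hβ0 : β ≠ 0 := by
    intro h
    rw [h, P.val_zero] at hβv
    exact hβv rfl
  have hDg : D' g = β⁻¹ * -(D' α0 + g * D' α1 + g ^ 2 * A * D' t + t * g ^ 2 * E) := by
    rw [eq_inv_mul_iff_mul_eq₀ hβ0, hβ]
    push_cast at hDeq
    simp only [pow_one] at hDeq
    linear_combination hDeq
  have hDα0 := hDF _ hα0F hα0P
  have hDα1 := hDF _ hα1F hα1P
  have hDgP : D' g ∈ P.ring := by
    rw [hDg]
    refine P.ring.mul_mem _ _ hβi (P.ring.neg_mem _ (P.ring.add_mem _ _ (P.ring.add_mem _ _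
      (P.ring.add_mem _ _ hDα0 (P.ring.mul_mem _ _ hg hDα1)) ?_) ?_))
    · exact P.ring.mul_mem _ _ (P.ring.mul_mem _ _ (P.pow_mem hg 2) hAP) hDt
    · exact P.ring.mul_mem _ _ (P.ring.mul_mem _ _ hm (P.pow_mem hg 2)) hE
  rw [hfq, map_add, Derivation.leibniz, Derivation.leibniz_pow]
  simp only [smul_eq_mul, nsmul_eq_mul]
  refine P.ring.add_mem _ _ (hDF _ hQF hQP) (P.ring.add_mem _ _ (P.ring.mul_mem _ _
    (P.pow_mem hm n) hDgP) (P.ring.mul_mem _ _ hg (P.ring.mul_mem _ _ (UNI_nat P n)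
    (P.ring.mul_mem _ _ (P.pow_mem hm _) hDt))))

end PUC
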